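import Pool.Agent.U569.APS.Bias

set_option autoImplicit false

/-! # Record prime gaps at the values of polynomials in several variables modulo `p` on arbitrary product sets

Let `f(Z) = log Z (log₂ Z)² log₄ Z / (log₃ Z)²` be the largest known order of prime gaps.

(1) Let `F_1, …, F_r` be polynomials in `k` variables over the field of `p` elements such that every nontrivial
linear combination of them contains a monomial with at least two variables, and let `A_1, …, A_k` be ARBITRARY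
sets of at least `p ^ (1/2 + 2 ε)` residues.  Around the values of `F_1, …, F_r` at the points of
`A_1 × … × A_k`, changed by arbitrary functions of one variable each, there are record gaps at the same time,
and also around all monomials in these values.

(2) Every set of at least `p ^ (1/2 + δ)` residues contains at least `p ^ (-δ)` times all `k`-tuples such that
the residues of ALL products of at least two elements of the tuple lie in the middle of record prime gaps.
-/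

namespace Pool.Agent.Results.MP_7b323f_nt.ArbitraryProductSets

open Finset Filter

/-- the record scale for gaps between primes -/
noncomputable def f (x : ℝ) : ℝ :=
  Real.log x * (Real.log (Real.log x)) ^ 2 * Real.log (Real.log (Real.log (Real.log x))) /
    (Real.log (Real.log (Real.log x))) ^ 2

/-- `F` has a monomial which contains at least two different variables. -/
def Mixed {p k : ℕ} (F : MvPolynomial (Fin k) (ZMod p)) : Prop :=
  ∃ m ∈ F.support, ∃ i j : Fin k, i ≠ j ∧ m i ≠ 0 ∧ m j ≠ 0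

open scoped Classical in
theorem general (r E k : ℕ) (δ : ℝ) (hδ : 0 < δ) (hδ1 : δ ≤ 1) :
    ∃ κ : ℝ, 0 < κ ∧ ∃ p₀ : ℕ, ∀ p : ℕ, p.Prime → p₀ ≤ p →
    ∀ (ε : ℝ) (F : Fin r → MvPolynomial (Fin k) (ZMod p)) (A : Fin k → Finset (ZMod p))
      (u : Fin k → ZMod p → Fin r → ZMod p),
    (∀ l, ((F l).totalDegree : ℝ) ≤ (p : ℝ) ^ (δ / 4)) →
    (∀ α : Fin r → ZMod p, α ≠ 0 → Mixed (∑ l, MvPolynomial.C (α l) * F l)) →
    (∀ i, (p : ℝ) ^ (1 / 2 + 2 * ε) ≤ (A i).card) →
    ∀ (M : Fin r → ℤ) (L : Fin r → ℕ), (∀ l, (p : ℝ) ^ δ ≤ L l ∧ L l ≤ p) →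
      (p : ℝ) ^ ((r : ℝ) - ε + δ) ≤ ∏ l, (L l : ℝ) →
    (p : ℝ) ^ (-δ) * ((∏ i, ((A i).card : ℝ)) * ∏ l, ((L l : ℝ) / p)) ≤
      (((Fintype.piFinset A).filter (fun a => ∃ z : Fin r → ℤ,
        (∀ l, M l < z l ∧ z l ≤ M l + L l ∧
          ((z l : ℤ) : ZMod p) = MvPolynomial.eval a (F l) + ∑ i, u i (a i) l) ∧
        ∀ e : Fin r → ℕ, (∀ l, e l ≤ E) → Finset.univ.gcd e = 1 →
          ∀ m : ℤ, |(m : ℝ) - ∏ l, (z l : ℝ) ^ e l| ≤ κ * f p →
            ∃ q : ℕ, q.Prime ∧ (q : ℝ) ≤ (p : ℝ) ^ δ ∧ (q : ℤ) ∣ m)).card : ℝ) := by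
  obtain ⟨κ, hκ, p₁, h⟩ := Pool.Agent.N39.RG.mainE r E (δ / 2) (by linarith) (by linarith)
  have hev : ∀ᶠ x : ℝ in atTop, 2 ≤ x ^ (δ / 4) :=
    (tendsto_rpow_atTop (by positivity)).eventually_ge_atTop 2
  obtain ⟨x₀, hx₀⟩ := eventually_atTop.mp hev
  obtain ⟨p₂, hp₂⟩ := exists_nat_ge x₀
  refine ⟨κ, hκ, max p₁ p₂, ?_⟩
  intro p hp hpp ε F A u hD hF hA M L hL hV
  have : Fact p.Prime := ⟨hp⟩
  have g2 : 2 ≤ (p : ℝ) ^ (δ / 4) :=
    hx₀ p (hp₂.trans (by exact_mod_cast (le_max_right _ _).trans hpp))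
  have hp1 : (1 : ℝ) < p := by exact_mod_cast hp.one_lt
  have hp0 : (0 : ℝ) < p := by linarith
  have hmo : ∀ x y : ℝ, x ≤ y → (p : ℝ) ^ x ≤ (p : ℝ) ^ y := fun x y h =>
    Real.rpow_le_rpow_of_exponent_le hp1.le h
  have hε : δ ≤ ε := by
    have h1 : ∏ l, (L l : ℝ) ≤ (p : ℝ) ^ (r : ℝ) := by
      calc ∏ l, (L l : ℝ) ≤ ∏ _l : Fin r, (p : ℝ) :=
            prod_le_prod (fun _ _ => Nat.cast_nonneg _) fun l _ => by exact_mod_cast (hL l).2
        _ = (p : ℝ) ^ (r : ℝ) := by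
            rw [prod_const, card_univ, Fintype.card_fin, Real.rpow_natCast]
    have h2 := (Real.rpow_le_rpow_left_iff hp1).1 (hV.trans h1)
    linarith
  have hSne : (Fintype.piFinset A).Nonempty := by
    rw [Fintype.piFinset_nonempty]
    intro i
    rw [← card_pos]
    have := lt_of_lt_of_le (Real.rpow_pos_of_pos hp0 _) (hA i)
    exact_mod_cast this
  have hScard : (((Fintype.piFinset A).card : ℕ) : ℝ) = ∏ i, ((A i).card : ℝ) := by
    rw [Fintype.card_piFinset]; push_cast; rfl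
  set D := ⌊(p : ℝ) ^ (δ / 4)⌋₊ with hDdef
  have hDle : (D : ℝ) ≤ (p : ℝ) ^ (δ / 4) := Nat.floor_le (by positivity)
  have hDp : D < p := by
    have h1 : (p : ℝ) ^ (δ / 4) < (p : ℝ) ^ (1 : ℝ) :=
      Real.rpow_lt_rpow_of_exponent_lt hp1 (by linarith)
    rw [Real.rpow_one] at h1
    exact_mod_cast hDle.trans_lt h1
  have hDeg : ∀ l, (F l).totalDegree ≤ D := fun l => Nat.le_floor (hD l)
  have key := h p ((le_max_left _ _).trans hpp) (ε - δ / 4) (Fin k → ZMod p) (Fintype.piFinset A)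
    (fun a l => MvPolynomial.eval a (F l) + ∑ i, u i (a i) l) hSne (by
      intro α hα
      obtain ⟨P, hP⟩ : ∃ P : ℝ, P = (p : ℝ) ^ (1 / 2 + 2 * ε) := ⟨_, rfl⟩
      have hP0 : 0 < P := by rw [hP]; exact Real.rpow_pos_of_pos hp0 _
      have h1 := Pool.Agent.U569.APS.bias_prod A F D hDeg hDp u α (hF α hα) P hP0
        (fun i => by rw [hP]; exact hA i)
      apply le_of_sq_le_sq _ (by positivity)
      refine h1.trans ?_
      rw [mul_pow]
      apply mul_le_mul_of_nonneg_left _ (by positivity)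
      obtain ⟨a, ha⟩ : ∃ a : ℝ, a = (p : ℝ) ^ (2 * ε) := ⟨_, rfl⟩
      have ha0 : 0 < a := by rw [ha]; exact Real.rpow_pos_of_pos hp0 _
      have hPa : P = Real.sqrt p * a := by
        rw [hP, ha, Real.sqrt_eq_rpow, ← Real.rpow_add hp0]
      have hsq : Real.sqrt p * Real.sqrt p = p := Real.mul_self_sqrt hp0.le
      have hs0 : 0 < Real.sqrt p := Real.sqrt_pos.2 hp0
      have h6 : ((p : ℝ) ^ (-(ε - δ / 4))) ^ 2 = (p : ℝ) ^ (δ / 2) / a := by
        rw [ha, ← Real.rpow_sub hp0, ← Real.rpow_natCast, ← Real.rpow_mul hp0.le]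
        congr 1
        push_cast
        ring
      have ha1 : 1 ≤ a := by
        rw [ha]; exact Real.one_le_rpow hp1.le (by linarith)
      rw [h6, hPa]
      have e1 : (D : ℝ) * (p / (Real.sqrt p * a) + Real.sqrt p) / (Real.sqrt p * a) =
          D * (1 / a + 1) / a := by
        have : (p : ℝ) / (Real.sqrt p * a) = Real.sqrt p / a := by
          rw [div_eq_div_iff (by positivity) (by positivity)]
          nlinarith [hsq]
        rw [this]
        field_simp
      rw [e1]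
      apply div_le_div_of_nonneg_right _ ha0.le
      have h7 : 1 / a ≤ 1 := by rw [div_le_one ha0]; exact ha1
      have h5 : (p : ℝ) ^ (δ / 2) = (p : ℝ) ^ (δ / 4) * (p : ℝ) ^ (δ / 4) := by
        rw [← Real.rpow_add hp0]; congr 1; ring
      rw [h5]
      calc (D : ℝ) * (1 / a + 1) ≤ (p : ℝ) ^ (δ / 4) * 2 := by
            apply mul_le_mul hDle (by linarith) (by positivity) (by positivity)
        _ ≤ _ := by gcongr) M L (fun j => (hL j).2)
    (fun j => (hmo _ _ (by linarith)).trans (hL j).1)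
    ((hmo _ _ (by linarith)).trans hV)
  rw [hScard] at key
  have hQ0 : 0 ≤ (∏ i, ((A i).card : ℝ)) * ∏ j, ((L j : ℝ) / p) :=
    mul_nonneg (prod_nonneg fun _ _ => by positivity) (prod_nonneg fun j _ => by positivity)
  refine (mul_le_mul_of_nonneg_right (hmo (-δ) (-(δ / 2)) (by linarith)) hQ0).trans (key.trans ?_)
  have h5 := Pool.Agent.N39.RG.fam_to_index (Fintype.piFinset A)
    (fun a : Fin k → ZMod p => fun l => MvPolynomial.eval a (F l) + ∑ i, u i (a i) l) M L
    (fun j => (hL j).2) (fun z => ∀ e : Fin r → ℕ, (∀ i, e i ≤ E) → Finset.univ.gcd e = 1 →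
        Pool.Agent.N39.RG.Far (∏ i, z i ^ e i) (κ * Pool.Agent.W147.PS.ff p) ((p : ℝ) ^ (δ / 2)))
  refine le_trans (Nat.cast_le.mpr h5) ?_
  rw [Nat.cast_le]
  apply card_le_card
  intro q hq
  rw [mem_filter] at hq ⊢
  obtain ⟨h6, z, h7, h8⟩ := hq
  refine ⟨h6, z, h7, fun e he hg m hm => ?_⟩
  obtain ⟨l, hl, hl2, hl3⟩ := h8 e he hg m (by
    push_cast
    exact hm)
  exact ⟨l, hl, hl2.trans (hmo _ _ (by linarith)), hl3⟩

/-- the sets of at least two indices -/
def big (k : ℕ) : Finset (Finset (Fin k)) := univ.filter (fun I => 2 ≤ I.card)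

/-- the products of the variables in the sets of at least two indices -/
noncomputable def prd (p k : ℕ) (I : Finset (Fin k)) : MvPolynomial (Fin k) (ZMod p) :=
  MvPolynomial.monomial (Finsupp.indicator I (fun _ _ => 1)) 1

lemma ind_apply {k : ℕ} (I : Finset (Fin k)) (i : Fin k) :
    (Finsupp.indicator I (fun _ _ => 1) : Fin k →₀ ℕ) i = if i ∈ I then 1 else 0 := by
  classical
  rw [Finsupp.indicator_apply]
  split_ifs <;> rfl

lemma ind_inj {k : ℕ} {I J : Finset (Fin k)}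
    (h : (Finsupp.indicator I (fun _ _ => 1) : Fin k →₀ ℕ) = Finsupp.indicator J (fun _ _ => 1)) :
    I = J := by
  classical
  ext i
  have h1 := DFunLike.congr_fun h i
  rw [ind_apply, ind_apply] at h1
  split_ifs at h1 with h2 h3 h3 <;> tauto

lemma prd_eval {p k : ℕ} [Fact p.Prime] (I : Finset (Fin k)) (a : Fin k → ZMod p) :
    MvPolynomial.eval a (prd p k I) = ∏ i ∈ I, a i := by
  classical
  unfold prd
  rw [MvPolynomial.eval_monomial, one_mul, Finsupp.prod_fintype _ _ (fun i => pow_zero _)]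
  rw [← Finset.prod_subset (subset_univ I)]
  · exact prod_congr rfl fun i hi => by rw [ind_apply, if_pos hi, pow_one]
  · intro i _ hi
    rw [ind_apply, if_neg hi, pow_zero]

lemma prd_deg {p k : ℕ} [Fact p.Prime] (I : Finset (Fin k)) : (prd p k I).totalDegree ≤ k := by
  classical
  unfold prd
  refine (MvPolynomial.totalDegree_monomial_le _ _).trans ?_
  rw [Finsupp.sum_fintype _ _ (fun _ => rfl)]
  calc ∑ i, (Finsupp.indicator I (fun _ _ => 1) : Fin k →₀ ℕ) i ≤ ∑ _i : Fin k, 1 :=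
        sum_le_sum fun i _ => by rw [ind_apply]; split_ifs <;> omega
    _ = k := by simp

/-- combinations of the products of the variables -/
lemma mixed_prd {p k r : ℕ} [Fact p.Prime] (e : Fin r ≃ {I // I ∈ big k}) (α : Fin r → ZMod p)
    (hα : α ≠ 0) : Mixed (∑ l, MvPolynomial.C (α l) * prd p k (e l).1) := by
  classical
  obtain ⟨l, hl⟩ : ∃ l, α l ≠ 0 := by
    by_contra h
    push Not at h
    exact hα (funext h)
  have hI : (e l).1 ∈ big k := (e l).2
  unfold big at hI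
  rw [mem_filter] at hI
  obtain ⟨i, hi, j, hj, hij⟩ := Finset.one_lt_card.1 (show 1 < (e l).1.card by omega)
  refine ⟨Finsupp.indicator (e l).1 (fun _ _ => 1), ?_, i, j, hij, ?_, ?_⟩
  · rw [MvPolynomial.mem_support_iff, MvPolynomial.coeff_sum, sum_eq_single l]
    · rw [MvPolynomial.coeff_C_mul]
      unfold prd
      rw [MvPolynomial.coeff_monomial, if_pos rfl, mul_one]
      exact hl
    · intro l' _ hne
      rw [MvPolynomial.coeff_C_mul]
      unfold prd
      rw [MvPolynomial.coeff_monomial, if_neg, mul_zero]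
      intro h
      exact hne (e.injective (Subtype.ext (ind_inj h)))
    · intro h
      exact absurd (mem_univ l) h
  · rw [ind_apply, if_pos hi]; exact one_ne_zero
  · rw [ind_apply, if_pos hj]; exact one_ne_zero

lemma f_small (κ c : ℝ) (hκ : 0 < κ) (hc : 0 < c) : ∀ᶠ x : ℝ in atTop, κ * f x < x ^ c := by
  have t1 := Real.tendsto_log_atTop
  have t2 := t1.comp t1
  have t3 := t1.comp t2
  have t4 := t1.comp t3
  have h5 : (fun x : ℝ => Real.log x ^ 4) =o[atTop] fun x : ℝ => x ^ c := by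
    have h5 := isLittleO_log_rpow_rpow_atTop (s := c) (4 : ℝ) hc
    refine h5.congr' ?_ (Filter.EventuallyEq.refl _ _)
    filter_upwards with x
    norm_cast
  filter_upwards [h5.def (show (0 : ℝ) < 1 / (2 * κ) by positivity), t1.eventually_ge_atTop 1,
    t2.eventually_ge_atTop 1, t3.eventually_ge_atTop 1, t4.eventually_ge_atTop 1,
    eventually_gt_atTop (0 : ℝ)] with x h6 h1 h2 h3 h4 h0
  simp only [Function.comp] at h2 h3 h4
  have g2 : Real.log (Real.log x) ≤ Real.log x := Real.log_le_self (by linarith)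
  have g3 : Real.log (Real.log (Real.log x)) ≤ Real.log x := (Real.log_le_self (by linarith)).trans g2
  have g4 : Real.log (Real.log (Real.log (Real.log x))) ≤ Real.log x :=
    (Real.log_le_self (by linarith)).trans g3
  have g5 : f x ≤ Real.log x ^ 4 := by
    unfold f
    rw [div_le_iff₀ (by positivity)]
    calc Real.log x * Real.log (Real.log x) ^ 2 * Real.log (Real.log (Real.log (Real.log x)))
        ≤ Real.log x * Real.log x ^ 2 * Real.log x := by gcongr
      _ = Real.log x ^ 4 * 1 := by ring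
      _ ≤ Real.log x ^ 4 * Real.log (Real.log (Real.log x)) ^ 2 := by
          gcongr
          exact one_le_pow₀ h3
  have hxc : 0 < x ^ c := Real.rpow_pos_of_pos h0 _
  rw [Real.norm_of_nonneg (by positivity), Real.norm_of_nonneg hxc.le] at h6
  calc κ * f x ≤ κ * (1 / (2 * κ) * x ^ c) := by gcongr; exact g5.trans h6
    _ = x ^ c / 2 := by field_simp
    _ < x ^ c := by linarith

open scoped Classical in
theorem products (k : ℕ) (δ : ℝ) (hδ : 0 < δ) (hδ1 : δ ≤ 1) :
    ∃ κ : ℝ, 0 < κ ∧ ∃ p₀ : ℕ, ∀ p : ℕ, p.Prime → p₀ ≤ p →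
    ∀ A : Finset (ZMod p), (p : ℝ) ^ (1 / 2 + δ) ≤ A.card →
    (p : ℝ) ^ (-δ) * (A.card : ℝ) ^ k ≤
      (((Fintype.piFinset fun _ : Fin k => A).filter (fun a =>
        ∀ I : Finset (Fin k), 2 ≤ I.card → ∀ q : ℕ, q.Prime →
          κ * f p < |(q : ℝ) - ((∏ i ∈ I, a i).val : ℝ)|)).card : ℝ) := by
  obtain ⟨r, hr⟩ : ∃ r, r = (big k).card := ⟨_, rfl⟩
  let e : Fin r ≃ {I // I ∈ big k} := (finCongr hr).trans (big k).equivFin.symm
  obtain ⟨κ, hκ, p₁, h⟩ := general r 1 k (δ / 4) (by linarith) (by linarith)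
  have E1 : ∀ᶠ x : ℝ in atTop, (k : ℝ) ≤ x ^ (δ / 4 / 4) :=
    (tendsto_rpow_atTop (by positivity)).eventually_ge_atTop _
  have E2 : ∀ᶠ x : ℝ in atTop, (2 : ℝ) ^ r ≤ x ^ (δ / 4) :=
    (tendsto_rpow_atTop (by positivity)).eventually_ge_atTop _
  have E3 : ∀ᶠ x : ℝ in atTop, κ * f x < x ^ (δ / 4) := f_small κ (δ / 4) hκ (by linarith)
  have E4 : ∀ᶠ x : ℝ in atTop, 8 ≤ x ^ (1 - δ / 4) :=
    (tendsto_rpow_atTop (by linarith)).eventually_ge_atTop _
  obtain ⟨x₀, hx₀⟩ := eventually_atTop.mp (E1.and (E2.and (E3.and (E4.and (eventually_ge_atTop 2)))))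
  obtain ⟨p₂, hp₂⟩ := exists_nat_ge x₀
  refine ⟨κ, hκ, max p₁ p₂, fun p hp hpp A hA => ?_⟩
  obtain ⟨g1, g2, g3, g4, g5⟩ := hx₀ p (hp₂.trans (by exact_mod_cast (le_max_right _ _).trans hpp))
  have : Fact p.Prime := ⟨hp⟩
  have : NeZero p := ⟨hp.ne_zero⟩
  have hp0 : (0 : ℝ) < p := by linarith
  have hp1 : (1 : ℝ) < p := by linarith
  set T : ℝ := (p : ℝ) ^ (δ / 4) with hT
  have hT1 : 1 ≤ T := Real.one_le_rpow hp1.le (by linarith)
  have hT8 : 8 * T ≤ p := by
    have h1 : (p : ℝ) ^ (1 - δ / 4) * T = p := by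
      rw [hT, ← Real.rpow_add hp0]
      have : (1 - δ / 4 + δ / 4 : ℝ) = 1 := by ring
      rw [this, Real.rpow_one]
    nlinarith
  obtain ⟨M, hM⟩ : ∃ M : ℕ, M = ⌈2 * T⌉₊ := ⟨_, rfl⟩
  have hM1 : 2 * T ≤ M := by rw [hM]; exact Nat.le_ceil _
  have hM2 : (M : ℝ) < 2 * T + 1 := by rw [hM]; exact Nat.ceil_lt_add_one (by linarith)
  have hMp : M + 1 ≤ p := by
    have : (M : ℝ) + 1 ≤ p := by linarith
    exact_mod_cast this
  obtain ⟨L, hL⟩ : ∃ L : ℕ, M + 1 + L = p := ⟨p - (M + 1), by omega⟩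
  have hLr : (L : ℝ) = p - M - 1 := by
    have : ((M + 1 + L : ℕ) : ℝ) = p := by rw [hL]
    push_cast at this
    linarith
  have hL2 : (p : ℝ) / 2 ≤ L := by rw [hLr]; linarith
  have hTL : T ≤ L := by linarith
  have key := h p hp ((le_max_left _ _).trans hpp) (δ / 2) (fun l => prd p k (e l).1) (fun _ => A)
    (fun _ _ _ => 0)
    (fun l => (by
      have h1 := prd_deg (p := p) (e l).1
      exact (Nat.cast_le.2 h1).trans g1))
    (fun α hα => mixed_prd e α hα)
    (fun _ => by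
      refine le_trans (le_of_eq ?_) hA
      congr 1
      ring) (fun _ => (M : ℤ)) (fun _ => L)
    (fun l => ⟨hTL, by omega⟩)
    (by
      rw [prod_const, card_univ, Fintype.card_fin]
      calc (p : ℝ) ^ ((r : ℝ) - δ / 2 + δ / 4) = (p : ℝ) ^ r / T := by
            rw [hT, ← Real.rpow_natCast, ← Real.rpow_sub hp0]
            congr 1
            ring
        _ ≤ (p : ℝ) ^ r / 2 ^ r := by
            apply div_le_div_of_nonneg_left (by positivity) (by positivity) g2
        _ = (p / 2 : ℝ) ^ r := by rw [div_pow]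
        _ ≤ (L : ℝ) ^ r := by gcongr)
  refine le_trans ?_ (key.trans ?_)
  · rw [prod_const, prod_const, card_univ, card_univ, Fintype.card_fin, Fintype.card_fin, div_pow]
    have h1 : (1 / 2 : ℝ) ^ r ≤ (L : ℝ) ^ r / (p : ℝ) ^ r := by
      rw [← div_pow]
      apply pow_le_pow_left₀ (by norm_num)
      rw [le_div_iff₀ hp0]
      linarith
    have h2 : (p : ℝ) ^ (-δ) ≤ (p : ℝ) ^ (-(δ / 4)) * (1 / 2 : ℝ) ^ r := by
      rw [one_div, inv_pow, ← div_eq_mul_inv, le_div_iff₀ (by positivity)]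
      calc (p : ℝ) ^ (-δ) * 2 ^ r ≤ (p : ℝ) ^ (-δ) * T := by gcongr
        _ = (p : ℝ) ^ (-δ + δ / 4) := by rw [hT, ← Real.rpow_add hp0]
        _ ≤ (p : ℝ) ^ (-(δ / 4)) := Real.rpow_le_rpow_of_exponent_le hp1.le (by linarith)
    calc (p : ℝ) ^ (-δ) * (A.card : ℝ) ^ k ≤ (p : ℝ) ^ (-(δ / 4)) * (1 / 2 : ℝ) ^ r * (A.card : ℝ) ^ k := by
          gcongr
      _ ≤ (p : ℝ) ^ (-(δ / 4)) * ((L : ℝ) ^ r / (p : ℝ) ^ r) * (A.card : ℝ) ^ k := by gcongr
      _ = _ := by ring
  · rw [Nat.cast_le]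
    apply card_le_card
    intro a ha
    rw [mem_filter] at ha ⊢
    obtain ⟨ha1, z, hz, hz2⟩ := ha
    refine ⟨ha1, fun I hI q hq => ?_⟩
    have hIb : I ∈ big k := by rw [big, mem_filter]; exact ⟨mem_univ _, hI⟩
    obtain ⟨l, hl⟩ : ∃ l, (e l).1 = I := ⟨e.symm ⟨I, hIb⟩, by simp⟩
    obtain ⟨h1, h2, h3⟩ := hz l
    have h4 : ((∏ i ∈ I, a i).val : ℤ) = z l := by
      have h5 : ((z l : ℤ) : ZMod p) = ∏ i ∈ I, a i := by
        rw [h3]
        simp only [sum_const_zero, add_zero, prd_eval, hl]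
      rw [← h5, ZMod.val_intCast]
      apply Int.emod_eq_of_lt
      · have : (0 : ℤ) ≤ M := Int.natCast_nonneg _
        linarith
      · have : ((M : ℤ) + 1 + L) = p := by exact_mod_cast hL
        linarith
    by_contra hcon
    push Not at hcon
    have h6 : (((∏ i ∈ I, a i).val : ℕ) : ℝ) = (z l : ℝ) := by
      have : ((((∏ i ∈ I, a i).val : ℕ) : ℤ) : ℝ) = (z l : ℝ) := by rw [h4]
      rw [← this]; norm_cast
    rw [h6] at hcon
    obtain ⟨s, hs, hs2, hs3⟩ := hz2 (Pi.single l 1) (fun l' => by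
        by_cases h : l' = l
        · subst h; simp
        · rw [Pi.single_eq_of_ne h]; omega)
      (by
        have : Finset.univ.gcd (Pi.single l 1 : Fin r → ℕ) ∣ 1 := by
          have := Finset.gcd_dvd (f := (Pi.single l 1 : Fin r → ℕ)) (mem_univ l)
          rwa [Pi.single_eq_same] at this
        exact Nat.dvd_one.1 this) (q : ℤ) (by
        have : ∏ l', ((z l' : ℝ)) ^ ((Pi.single l 1 : Fin r → ℕ) l') = z l := by
          rw [prod_eq_single l]
          · rw [Pi.single_eq_same, pow_one]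
          · intro l' _ h
            rw [Pi.single_eq_of_ne h, pow_zero]
          · intro h; exact absurd (mem_univ l) h
        rw [this]
        exact_mod_cast hcon)
    have h7 : s = q := (Nat.prime_dvd_prime_iff_eq hs hq).1 (by exact_mod_cast hs3)
    rw [h7] at hs2
    have h8 : (M : ℝ) < z l := by exact_mod_cast h1
    have h9 := (abs_le.1 hcon).1
    linarith

open scoped Classical in
/-- (1) Let `r, E, k ≥ 0` and `0 < δ ≤ 1`. There are `κ > 0` and `p₀` such that for every prime `p ≥ p₀` and all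
real `ε`: let `F_1, …, F_r` be polynomials in `k` variables over `F_p`, of degree at most `p ^ (δ/4)`, such that
for every `α ≠ 0` the combination `∑ α_l F_l` contains a monomial with at least two different variables, let
`A_1, …, A_k` be any sets of at least `p ^ (1/2 + 2 ε)` residues and let `u_i` be any functions on `F_p` with
values in `F_p ^ r`. Then for every box `∏ (M_l, M_l + L_l]` with `p ^ δ ≤ L_l ≤ p` of volume at least
`p ^ (r - ε + δ)` there are at least `p ^ (-δ) |A_1| ⋯ |A_k| ∏ (L_l / p)` points `a` in `A_1 × … × A_k` such that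
the box contains an integer vector `z`, `z_l ≡ F_l(a) + ∑ u_i(a_i)_l` modulo `p`, with the following property:
for all coprime exponents `e_l ≤ E` every integer at distance at most `κ f(p)` from `∏ z_l ^ e_l` has a prime
factor at most `p ^ δ`.

(2) Let `k ≥ 0` and `0 < δ ≤ 1`. There are `κ > 0` and `p₀` such that for every prime `p ≥ p₀` and every set `A`
of at least `p ^ (1/2 + δ)` residues at least `p ^ (-δ) |A| ^ k` of the `k`-tuples `a` of elements of `A` satisfy:
for EVERY set `I` of at least two indices there is no prime number at distance at most `κ f(p)` from the least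
residue of `∏_{i ∈ I} a_i` modulo `p`. -/
theorem result :
    (∀ (r E k : ℕ) (δ : ℝ), 0 < δ → δ ≤ 1 →
      ∃ κ : ℝ, 0 < κ ∧ ∃ p₀ : ℕ, ∀ p : ℕ, p.Prime → p₀ ≤ p →
      ∀ (ε : ℝ) (F : Fin r → MvPolynomial (Fin k) (ZMod p)) (A : Fin k → Finset (ZMod p))
        (u : Fin k → ZMod p → Fin r → ZMod p),
      (∀ l, ((F l).totalDegree : ℝ) ≤ (p : ℝ) ^ (δ / 4)) →
      (∀ α : Fin r → ZMod p, α ≠ 0 → Mixed (∑ l, MvPolynomial.C (α l) * F l)) →
      (∀ i, (p : ℝ) ^ (1 / 2 + 2 * ε) ≤ (A i).card) →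
      ∀ (M : Fin r → ℤ) (L : Fin r → ℕ), (∀ l, (p : ℝ) ^ δ ≤ L l ∧ L l ≤ p) →
        (p : ℝ) ^ ((r : ℝ) - ε + δ) ≤ ∏ l, (L l : ℝ) →
      (p : ℝ) ^ (-δ) * ((∏ i, ((A i).card : ℝ)) * ∏ l, ((L l : ℝ) / p)) ≤
        (((Fintype.piFinset A).filter (fun a => ∃ z : Fin r → ℤ,
          (∀ l, M l < z l ∧ z l ≤ M l + L l ∧
            ((z l : ℤ) : ZMod p) = MvPolynomial.eval a (F l) + ∑ i, u i (a i) l) ∧
          ∀ e : Fin r → ℕ, (∀ l, e l ≤ E) → Finset.univ.gcd e = 1 →
            ∀ m : ℤ, |(m : ℝ) - ∏ l, (z l : ℝ) ^ e l| ≤ κ * f p →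
              ∃ q : ℕ, q.Prime ∧ (q : ℝ) ≤ (p : ℝ) ^ δ ∧ (q : ℤ) ∣ m)).card : ℝ)) ∧
    (∀ (k : ℕ) (δ : ℝ), 0 < δ → δ ≤ 1 →
      ∃ κ : ℝ, 0 < κ ∧ ∃ p₀ : ℕ, ∀ p : ℕ, p.Prime → p₀ ≤ p →
      ∀ A : Finset (ZMod p), (p : ℝ) ^ (1 / 2 + δ) ≤ A.card →
      (p : ℝ) ^ (-δ) * (A.card : ℝ) ^ k ≤
        (((Fintype.piFinset fun _ : Fin k => A).filter (fun a =>
          ∀ I : Finset (Fin k), 2 ≤ I.card → ∀ q : ℕ, q.Prime →
            κ * f p < |(q : ℝ) - ((∏ i ∈ I, a i).val : ℝ)|)).card : ℝ)) :=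
  ⟨general, products⟩

end Pool.Agent.Results.MP_7b323f_nt.ArbitraryProductSets
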