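import Pool.Agent.U642.CT.Fam

set_option autoImplicit false

/-!
# Continued fractions with all numerators and denominators in record prime gaps

Let `f(x) = log x (log₂ x)² log₄ x / (log₃ x)²` be the order of the largest prime gaps that are
known to occur (starting files), and write `[x_1; x_2, …, x_n]` for the continued fraction
`x_1 + 1 / (x_2 + 1 / (… + 1 / x_n))`.

The theorem: let `n ≥ 1` and `0 < δ ≤ 1`.  In every box `∏ (M_j, M_j + L_j]` with `M_j ≥ X ^ δ` and
`L_j ≥ X ^ δ`, `X` large, there are at least `X ^ (-δ) ∏ L_j` vectors `x` of positive integers such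
that for all sections `x_i, …, x_j`, `i ≤ j`, the numerator and (if `i < j`) the denominator, in
lowest terms, of the continued fraction `[x_i; x_(i+1), …, x_j]` are in the middle of record prime
gaps for the size `X`: all the prime numbers are at a distance larger than `κ f(X)` from these
numerators and denominators.  In particular this holds for all the partial quotients `x_i`, and for
the numerators and denominators of all the convergents of the number `[x_1; x_2, …, x_n]`.

Method.  The numerators and denominators are the continuants `K(x_i, …, x_j)`.  The continuants of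
all the sections are a balanced family of polynomials: modulo every prime `p` the values of each of
them are equidistributed with an error `O(1 / p)` (with the one exception of the value `1` of the
continuants `x_i x_(i+1) + 1` of length two), and the pairs of values of two of them are taken at
most a constant times as often as expected.  The proof is by induction, using that a continuant is
linear in its first and in its last variable and that the two coefficients have no common zeros.
The criterion for balanced families (covering sieve, helper837 and helper542, after helper256 and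
helper378) then gives the theorem.
-/

namespace Pool.Agent.Results.MP_7b323f_nt.ContinuedFractions

open Finset Filter
open Pool.Agent.U642.CT (K K_zero K_one K_left K_two)

/-- The record scale `f(x) = log x (log₂ x)² log₄ x / (log₃ x)²` (iterated natural logarithms). -/
noncomputable def f (x : ℝ) : ℝ :=
  Real.log x * (Real.log (Real.log x)) ^ 2 * Real.log (Real.log (Real.log (Real.log x))) /
    (Real.log (Real.log (Real.log x))) ^ 2

/-- `cf x i k` is the continued fraction `[x i; x (i + 1), …, x (i + k)]`. -/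
def cf (x : ℕ → ℤ) : ℕ → ℕ → ℚ
  | i, 0 => x i
  | i, k + 1 => x i + 1 / cf x (i + 1) k

/-- The vector `x` as a sequence (continued by `0`). -/
def seq {n : ℕ} (x : Fin n → ℤ) (i : ℕ) : ℤ := if h : i < n then x ⟨i, h⟩ else 0

/-- All the prime numbers are at a distance larger than `ρ` from `v`. -/
def Isolated (ρ : ℝ) (v : ℤ) : Prop := ∀ q : ℕ, q.Prime → ρ < |(q : ℝ) - v|

lemma K_pos (x : ℕ → ℤ) : ∀ (l a : ℕ), (∀ i, a ≤ i → i < a + l → 1 ≤ x i) → 0 < K x a l
  | 0, _, _ => by rw [K_zero]; exact one_pos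
  | 1, a, h => by
    rw [K_one]
    have := h a le_rfl (by omega)
    omega
  | l + 2, a, h => by
    rw [K_two]
    have h1 := h (a + l + 1) (by omega) (by omega)
    have h2 := K_pos x (l + 1) a (fun i h3 h4 => h i h3 (by omega))
    have h3 := K_pos x l a (fun i h3 h4 => h i h3 (by omega))
    positivity

lemma K_coprime (x : ℕ → ℤ) : ∀ (l a : ℕ), IsCoprime (K x a (l + 1)) (K x (a + 1) l)
  | 0, a => by rw [K_zero]; exact isCoprime_one_right
  | l + 1, a => by
    rw [K_left]
    have h := (K_coprime x l (a + 1)).symm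
    have e1 : x a * K x (a + 1) (l + 1) + K x (a + 2) l =
      K x (a + 2) l + x a * K x (a + 1) (l + 1) := add_comm _ _
    rw [e1]
    exact h.add_mul_right_left (x a)

lemma cf_eq (x : ℕ → ℤ) : ∀ (k i : ℕ), (∀ j, i ≤ j → j ≤ i + k → 1 ≤ x j) →
    cf x i k = ((K x i (k + 1) : ℤ) : ℚ) / ((K x (i + 1) k : ℤ) : ℚ)
  | 0, i, _ => by
    show (x i : ℚ) = _
    rw [zero_add, K_one, K_zero]
    simp
  | k + 1, i, h => by
    show (x i : ℚ) + 1 / cf x (i + 1) k = _
    rw [cf_eq x k (i + 1) (fun j h1 h2 => h j (by omega) (by omega)), K_left]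
    have h1 : (0 : ℚ) < ((K x (i + 1) (k + 1) : ℤ) : ℚ) := by
      have := K_pos x (k + 1) (i + 1) (fun j h1 h2 => h j (by omega) (by omega))
      exact_mod_cast this
    have h2 : (0 : ℚ) < ((K x (i + 1 + 1) k : ℤ) : ℚ) := by
      have := K_pos x k (i + 1 + 1) (fun j h1 h2 => h j (by omega) (by omega))
      exact_mod_cast this
    push_cast
    have e2 : i + 2 = i + 1 + 1 := by ring
    rw [e2]
    field_simp

lemma cf_num (x : ℕ → ℤ) (k i : ℕ) (h : ∀ j, i ≤ j → j ≤ i + k → 1 ≤ x j) :
    (cf x i k).num = K x i (k + 1) ∧ ((cf x i k).den : ℤ) = K x (i + 1) k := by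
  rw [cf_eq x k i h]
  have h1 : 0 < K x (i + 1) k := K_pos x k (i + 1) (fun j h1 h2 => h j (by omega) (by omega))
  have h2 : Nat.Coprime (K x i (k + 1)).natAbs (K x (i + 1) k).natAbs :=
    Int.isCoprime_iff_gcd_eq_one.mp (K_coprime x k i)
  exact ⟨Rat.num_div_eq_of_coprime h1 h2, Rat.den_div_eq_of_coprime h1 h2⟩

/-- **Continued fractions with all numerators and denominators in record prime gaps.** -/
theorem result (n : ℕ) (δ : ℝ) (hδ : 0 < δ) (hδ1 : δ ≤ 1) :
    ∃ κ : ℝ, 0 < κ ∧ ∃ X₀ : ℝ, ∀ X : ℝ, X₀ ≤ X → ∀ (M : Fin n → ℤ) (L : Fin n → ℕ),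
      (∀ j, X ^ δ ≤ M j ∧ X ^ δ ≤ L j) →
      X ^ (-δ) * ∏ j, (L j : ℝ) ≤
        ({x : Fin n → ℤ | (∀ j, M j < x j ∧ x j ≤ M j + L j) ∧
          ∀ i k : ℕ, i + k < n → Isolated (κ * f X) (cf (seq x) i k).num ∧
            (1 ≤ k → Isolated (κ * f X) ((cf (seq x) i k).den : ℤ))}.ncard : ℝ) := by
  classical
  obtain ⟨h1, h2⟩ := Pool.Agent.U642.CT.cont_balanced n
  obtain ⟨κ, hκ, hev⟩ := Pool.Agent.U642.CT.box_crit n _
    (Pool.Agent.N542.PT.crit_balanced _ _ h2 h1) (δ / 2) (by positivity) (by linarith)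
  have hall := (hev.and (Pool.Agent.U642.CT.ff_up κ (δ / 2) (by positivity))).and
    ((Pool.Agent.W147.PS.ev_pow (δ / 2) δ 3 (by linarith)).and (eventually_gt_atTop (1 : ℝ)))
  obtain ⟨X₀, hX₀⟩ := eventually_atTop.mp hall
  refine ⟨κ, hκ, X₀, fun X hX M L hML => ?_⟩
  obtain ⟨⟨g1, g2⟩, g3, g4⟩ := hX₀ X hX
  have hX0 : (0 : ℝ) < X := by linarith
  have hmono : ∀ x y : ℝ, x ≤ y → X ^ x ≤ X ^ y := fun x y h =>
    Real.rpow_le_rpow_of_exponent_le g4.le h
  have hV0 : 0 ≤ ∏ j, (L j : ℝ) := prod_nonneg fun j _ => Nat.cast_nonneg _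
  have key := g1 M L (fun j => (hmono _ _ (by linarith)).trans (hML j).2)
  refine (mul_le_mul_of_nonneg_right (hmono _ _ (by linarith)) hV0).trans (key.trans ?_)
  set S := {x : Fin n → ℤ | (∀ j, M j < x j ∧ x j ≤ M j + L j) ∧
          ∀ i k : ℕ, i + k < n → Isolated (κ * f X) (cf (seq x) i k).num ∧
            (1 ≤ k → Isolated (κ * f X) ((cf (seq x) i k).den : ℤ))} with hS
  have hfin : S.Finite := by
    apply Set.Finite.subset (Fintype.piFinset fun j => Ioc (M j) (M j + L j)).finite_toSet
    intro x hx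
    rw [mem_coe, Fintype.mem_piFinset]
    intro j
    rw [mem_Ioc]
    exact hx.1 j
  rw [Nat.cast_le, ← Set.ncard_coe_finset]
  apply Set.ncard_le_ncard _ hfin
  intro x hx
  rw [mem_coe, mem_filter, Fintype.mem_piFinset] at hx
  obtain ⟨h3, h4⟩ := hx
  have hXδ : 1 < X ^ δ := Real.one_lt_rpow g4 hδ
  have hxbig : ∀ j, X ^ δ ≤ x j := by
    intro j
    have h5 := (mem_Ioc.mp (h3 j)).1
    have h6 : ((M j : ℤ) : ℝ) < x j := by exact_mod_cast h5
    linarith [(hML j).1]
  have hx1 : ∀ j, 1 ≤ x j := by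
    intro j
    have : (0 : ℝ) < x j := by linarith [hxbig j]
    have h6 : 0 < x j := by exact_mod_cast this
    omega
  have hseq : ∀ i, i < n → 1 ≤ seq x i ∧ X ^ δ ≤ seq x i := by
    intro i hi
    unfold seq
    rw [dif_pos hi]
    exact ⟨hx1 _, hxbig _⟩
  -- all the continuants are isolated
  have hiso : ∀ a l : ℕ, 1 ≤ l → a + l ≤ n → Isolated (κ * f X) (K (seq x) a l) := by
    intro a l hl hal q hq
    by_contra hcon
    push Not at hcon
    have hKbig : X ^ δ ≤ K (seq x) a l := by
      obtain ⟨k, rfl⟩ : ∃ k, l = k + 1 := ⟨l - 1, by omega⟩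
      rcases k with _ | k
      · rw [zero_add, K_one]
        exact (hseq a (by omega)).2
      · rw [K_two]
        have h5 := K_pos (seq x) (k + 1) a (fun i h6 h7 => (hseq i (by omega)).1)
        have h6 := K_pos (seq x) k a (fun i h6 h7 => (hseq i (by omega)).1)
        obtain ⟨h7, h8⟩ := hseq (a + k + 1) (by omega)
        have h9 : seq x (a + k + 1) ≤ seq x (a + k + 1) * K (seq x) a (k + 1) + K (seq x) a k := by
          nlinarith
        have h10 : ((seq x (a + k + 1) : ℤ) : ℝ) ≤
            ((seq x (a + k + 1) * K (seq x) a (k + 1) + K (seq x) a k : ℤ) : ℝ) := by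
          exact_mod_cast h9
        exact h8.trans h10
    have hw : ∃ w : Pool.Agent.U642.CT.Sec n, (w.1.1 : ℕ) = a ∧ (w.1.2 : ℕ) = l :=
      ⟨⟨(⟨a, by omega⟩, ⟨l, by omega⟩), hl, hal⟩, rfl, rfl⟩
    obtain ⟨w, hwa, hwl⟩ := hw
    obtain ⟨p, hp, hp1, hp2⟩ := h4 w q (by
      rw [Pool.Agent.U642.CT.contF_eval, hwa, hwl]
      exact hcon)
    have hpq : p = q := by
      have : p ∣ q := by exact_mod_cast hp2
      exact (Nat.prime_dvd_prime_iff_eq hp hq).1 this
    rw [hpq] at hp1
    have h5 := (abs_le.mp hcon).1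
    have h6 : κ * f X ≤ X ^ (δ / 2) := g2
    have h7 : (0 : ℝ) < X ^ (δ / 2) := Real.rpow_pos_of_pos hX0 _
    linarith
  refine ⟨fun j => mem_Ioc.mp (h3 j), fun i k hik => ?_⟩
  obtain ⟨h5, h6⟩ := cf_num (seq x) k i (fun j h7 h8 => (hseq j (by omega)).1)
  rw [h5, h6]
  exact ⟨hiso i (k + 1) (by omega) (by omega), fun hk => hiso (i + 1) k hk (by omega)⟩

end Pool.Agent.Results.MP_7b323f_nt.ContinuedFractions
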