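import Mathlib
import Pool.Agent.U395.RP.FinE

set_option autoImplicit false

/-!
# The growth exponent of the maximal gap after random changes of the primes

Change the primes at random: let `Q` be a random set of positive integers which contains `n` with probability
`π(n)`, independently for all `n`, where, for some `c` with `0 ≤ c < 1`,

* (additions) `π(n) ≤ (log n)^(-1 + c + o(1))` for composite `n`,
* (deletions) `1 - π(p) ≥ exp(-(log p)^(c + o(1)))` for primes `p`.

Let `G(X)` be the largest gap which follows an element of `Q` not exceeding `X`.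

* (1) If `π(p) ≥ ρ` for all large primes, with `ρ > 0`, then almost surely `G(X) ≥ (log X)^(2 - c - o(1))` for
  all large `X`. No additions are needed: for example, deleting every prime `p` with the tiny probability
  `exp(-(log p)^c)` and adding nothing forces `G(X) ≥ (log X)^(2 - c - o(1))`, and deleting it with the probability
  `exp(-(log log p)^10)` forces the lower half `G(X) ≥ (log X)^(2 - o(1))` of the conjecture, for all large `X`.
* (2) If instead `π(n) ≥ (log n)^(-1 + c - o(1))` for all `n`, then almost surely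
  `G(X) = (log X)^(2 - c + o(1))`. For `c = 0` this is the positive answer to the question for `Q`: here
  `π(n) = 1 / log n` is Cramér's model; the other extreme cases are sets which differ from the primes at a
  proportion `0` of them, for example `π(n) = (1 - t(n)) 1_prime(n) + t(n) / log n` with
  `t(n) = (log n)^(-o(1))`, `t(n) → 0`. For `c > 0` the growth exponent is smaller than `2`.

Proof. By Maier's matrix method (`H510R2.Maier.G.few_freq`, helper510's team) there are at least `X^(1 - η)` windows
of length `C (log n)²` with `X^(1 - η) ≤ n ≤ X` and at most `κ log n` primes; each has a part of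
length `(log n)^(2 - c - β)` with at most `(log n)^(1 - c - β)` primes, up to constants, and at least one of
these parts is empty for every large `X` (Borel-Cantelli for disjoint windows). The upper bound is Cramér's
argument. In (1) one prime of every dyadic interval shows that the gap found ends soon enough.
-/

open MeasureTheory ProbabilityTheory Filter Topology

namespace Pool.Agent.Results.MP_7b323f_nt.RandomChanges

/-- `G Q X` is the largest gap `q_(k+1) - q_k` between consecutive elements `q_0 < q_1 < …` of `Q` with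
`q_k ≤ X`. -/
noncomputable def G (Q : Set ℕ) (X : ℕ) : ℕ :=
  sSup {g | ∃ k, Nat.nth (· ∈ Q) k ≤ X ∧ g = Nat.nth (· ∈ Q) (k + 1) - Nat.nth (· ∈ Q) k}

/-- A random change of the primes with exponent `c`: `E n` is the event that `n` belongs to the random
set. The events are independent; a composite number `n` belongs to the set with probability at most
`(log n)^(-1 + c + o(1))`, and a prime `p` is missing with probability at least `exp(-(log p)^(c + o(1)))`. -/
structure RandomChange {Ω : Type*} [MeasurableSpace Ω] (μ : Measure Ω) (c : ℝ) (E : ℕ → Set Ω) :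
    Prop where
  meas : ∀ n, MeasurableSet (E n)
  indep : iIndepSet E μ
  added : ∀ ε : ℝ, 0 < ε → ∀ᶠ n : ℕ in atTop, ¬ n.Prime →
    μ.real (E n) ≤ (Real.log n) ^ (-1 + c + ε)
  deleted : ∀ ε : ℝ, 0 < ε → ∀ᶠ p : ℕ in atTop, p.Prime →
    μ.real (E p) ≤ 1 - Real.exp (-(Real.log p) ^ (c + ε))

/-- (1) and (2). -/
theorem result.{u} (c : ℝ) (hc : 0 ≤ c) (hc1 : c < 1) :
    (∀ (Ω : Type u) [MeasurableSpace Ω] (μ : Measure Ω) [IsProbabilityMeasure μ] (E : ℕ → Set Ω),
      RandomChange μ c E →
      (∃ ρ : ℝ, 0 < ρ ∧ ∀ᶠ p : ℕ in atTop, p.Prime → ρ ≤ μ.real (E p)) →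
      ∀ᵐ ω ∂μ, {n | ω ∈ E n}.Infinite ∧ ∀ ε : ℝ, 0 < ε → ∀ᶠ X : ℕ in atTop,
        (Real.log X) ^ (2 - c - ε) ≤ G {n | ω ∈ E n} X) ∧
    (∀ (Ω : Type u) [MeasurableSpace Ω] (μ : Measure Ω) [IsProbabilityMeasure μ] (E : ℕ → Set Ω),
      RandomChange μ c E →
      (∀ ε : ℝ, 0 < ε → ∀ᶠ n : ℕ in atTop, (Real.log n) ^ (-1 + c - ε) ≤ μ.real (E n)) →
      ∀ᵐ ω ∂μ, {n | ω ∈ E n}.Infinite ∧ ∀ ε : ℝ, 0 < ε → ∀ᶠ X : ℕ in atTop,
        (Real.log X) ^ (2 - c - ε) ≤ G {n | ω ∈ E n} X ∧
        (G {n | ω ∈ E n} X : ℝ) ≤ (Real.log X) ^ (2 - c + ε)) := by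
  refine ⟨?_, ?_⟩
  · intro Ω _ μ _ E h hL
    obtain ⟨ρ, hρ, hL⟩ := hL
    exact Pool.Agent.U395.RP.finE2 c hc hc1 h.meas h.indep h.added h.deleted ρ hρ hL
  · intro Ω _ μ _ E h hL
    exact Pool.Agent.U395.RP.finE1 c hc hc1 h.meas h.indep h.added h.deleted hL

end Pool.Agent.Results.MP_7b323f_nt.RandomChanges
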