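import Pool.Agent.U602.ZK.Main

set_option autoImplicit false

/-! # Record prime gaps and the Zeckendorf expansion

Every natural number `n` is in exactly one way a sum of Fibonacci numbers `F_i`, `i ∈ I(n)`, with
`I(n) ⊂ {2, 3, …}` without consecutive elements (Zeckendorf; in Mathlib `I(n)` is the list
`Nat.zeckendorf n`). Let `G` be a finite abelian group, `c : ℕ → G`, and let `f(n)` be the sum of the
`c i` over `i ∈ I(n)`. Suppose that for some `w` and for all `k` the elements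
`c (i + 2) - c (i + 1) - c i`, `k ≤ i < k + w`, generate `G`. (Example: `G = ℤ / m`, `c i = 1` for all
`i`; then `f(n)` is the number of summands modulo `m`.) Let `α₁, …, α_r > 0` be real numbers such that
`|h₁ α₁ + ⋯ + h_r α_r - m| ≥ c₀ H ^ (-τ)` for all integers `m` and integers `h_j`, not all zero, with
`|h_j| ≤ H`, let `β₁, …, β_r` be real and `ε > 0`.

There is `κ > 0` such that for all large `X` and all `g ∈ G` there is an integer `n` in the interval
`(X, X + X ^ ε]` with `f(n) = g` such that no prime lies within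
`κ log X (log₂ X)² log₄ X / (log₃ X)²` of any of the numbers `n, α₁ n + β₁, …, α_r n + β_r`.

Proof. For a nontrivial character `χ` the sums `A_k` of `χ(f(m)) e(θ m)` over `m < F_k` satisfy
`A_{k+1} = A_k + z_k A_{k-1}` with `z_k = χ(c k) e(θ F_k)`. If `z_k, z_{k+1}, z_{k+2}` are all near `1` then
so is `χ(c (k+2) - c (k+1) - c k)`; hence in every window of length `w + 2` some `z_j` is far from `1`,
which gives a contraction. So the sums save a power, uniformly in `θ`, and the (joint) covering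
criterion of the starting library applies. -/

namespace Pool.Agent.Results.MP_7b323f_nt.ZeckendorfExpansions

open Filter

theorem result (G : Type) [AddCommGroup G] [Finite G] (c : ℕ → G) (w : ℕ)
    (hgen : ∀ k, AddSubgroup.closure {g : G | ∃ i, k ≤ i ∧ i < k + w ∧
      g = c (i + 2) - c (i + 1) - c i} = ⊤)
    (r : ℕ) (hr : 1 ≤ r) (α β : Fin r → ℝ) (hα : ∀ j, 0 < α j)
    (c₀ τ : ℝ) (hc : 0 < c₀) (hτ : 0 ≤ τ)
    (hdio : ∀ (H : ℕ) (h : Fin r → ℤ), h ≠ 0 → (∀ j, |h j| ≤ H) → ∀ m : ℤ,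
      c₀ * (H : ℝ) ^ (-τ) ≤ |∑ j, (h j : ℝ) * α j - m|)
    (ε : ℝ) (hε : 0 < ε) :
    ∃ κ : ℝ, 0 < κ ∧ ∃ X₀ : ℝ, ∀ X : ℝ, X₀ ≤ X → ∀ g : G,
      ∃ n : ℕ, X < n ∧ (n : ℝ) ≤ X + X ^ ε ∧ ((Nat.zeckendorf n).map c).sum = g ∧
        ∀ q : ℕ, q.Prime →
        κ * (Real.log X * (Real.log (Real.log X)) ^ 2 *
          Real.log (Real.log (Real.log (Real.log X))) / (Real.log (Real.log (Real.log X))) ^ 2) <
            |(q : ℝ) - n| ∧
        ∀ j, κ * (Real.log X * (Real.log (Real.log X)) ^ 2 *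
          Real.log (Real.log (Real.log (Real.log X))) / (Real.log (Real.log (Real.log X))) ^ 2) <
            |(q : ℝ) - (α j * n + β j)| := by
  have : Fintype G := Fintype.ofFinite G
  obtain ⟨κ, hκ, h⟩ := Pool.Agent.U602.ZK.main_zk c w hgen r hr α β hα c₀ τ hc hτ hdio ε hε
  obtain ⟨X₀, hX₀⟩ := eventually_atTop.1 h
  refine ⟨κ, hκ, X₀, fun X hX g => ?_⟩
  obtain ⟨n, h1, h2, h3, h4, h5⟩ := hX₀ X hX g
  exact ⟨n, h1, h2, h3, fun q hq => ⟨h4 q hq, fun j => h5 j q hq⟩⟩

end Pool.Agent.Results.MP_7b323f_nt.ZeckendorfExpansions
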